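import Pool.Agent.Q7.LK.Stm3
import Pool.Agent.Q14.LK.LA

/-!
# Project LK of helper7: job LAM (helper193), saturation, several vectors
-/

set_option autoImplicit false

namespace Pool.Agent.Q193.LK

open Finset
open Pool.Agent.Q7.LK
open Pool.Agent.Q14.LK.LAa

namespace LAMa

/-- a submodule generated by few elements modulo the image of `f`, if a power of `f` is divisible by `p` -/
theorem few (p : ℕ) [Fact p.Prime] (n s N m : ℕ) (f : (Fin n → ℤ_[p]) →ₗ[ℤ_[p]] (Fin n → ℤ_[p]))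
    (R : Submodule ℤ_[p] (Fin n → ℤ_[p])) (x : Fin s → Fin n → ℤ_[p])
    (hgen : R ≤ Submodule.span ℤ_[p] (Set.range x) ⊔ R.map f)
    (hN : R.map (f ^ N) ≤ Ideal.span {(p : ℤ_[p])} • R) (a : Fin m → Fin n → ℤ_[p])
    (ha : LinearIndependent ℤ_[p] a) (haR : ∀ i, a i ∈ R) : m ≤ N * s := by
  classical
  obtain ⟨w, hw⟩ : ∃ w : ℕ → Finset (Fin n → ℤ_[p]), w = fun j =>
    (range j ×ˢ (univ : Finset (Fin s))).image fun q => (f ^ q.1) (x q.2) := ⟨_, rfl⟩
  have hmem : ∀ (j i : ℕ) (k : Fin s), i < j → (f ^ i) (x k) ∈ w j := by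
    intro j i k hij
    rw [hw]
    exact mem_image.2 ⟨(i, k), mem_product.2 ⟨mem_range.2 hij, mem_univ _⟩, rfl⟩
  have hmono : ∀ j, (w j : Set (Fin n → ℤ_[p])) ⊆ w (j + 1) := by
    intro j y hy
    rw [hw, mem_coe, mem_image] at hy
    obtain ⟨q, hq, rfl⟩ := hy
    rw [mem_product, mem_range] at hq
    exact hmem (j + 1) q.1 q.2 (by omega)
  have h1 : ∀ j : ℕ, R ≤ Submodule.span ℤ_[p] (w j : Set (Fin n → ℤ_[p])) ⊔ R.map (f ^ j) := by
    intro j
    induction j with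
    | zero =>
      rw [pow_zero]
      refine le_trans ?_ le_sup_right
      intro y hy
      exact ⟨y, hy, rfl⟩
    | succ j ih =>
      refine ih.trans (sup_le ?_ ?_)
      · exact (Submodule.span_mono (hmono j)).trans le_sup_left
      · have h2 := Submodule.map_mono (f := f ^ j) hgen
        rw [Submodule.map_sup, Submodule.map_span, ← Submodule.map_comp] at h2
        refine h2.trans (sup_le_sup ?_ ?_)
        · rw [Submodule.span_le]
          rintro y ⟨z, ⟨k, rfl⟩, rfl⟩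
          exact Submodule.subset_span (hmem (j + 1) j k (by omega))
        · rw [pow_succ]
          exact le_rfl
  have h2 : R ≤ Submodule.span ℤ_[p] (w N : Set (Fin n → ℤ_[p])) ⊔ Ideal.span {(p : ℤ_[p])} • R :=
    (h1 N).trans (sup_le_sup le_rfl hN)
  have hfg : R.FG := IsNoetherian.noetherian R
  have hjac : Ideal.span {(p : ℤ_[p])} ≤ Ideal.jacobson ⊥ := by
    rw [IsLocalRing.jacobson_eq_maximalIdeal ⊥ bot_ne_top, PadicInt.maximalIdeal_eq_span_p]
  have h3 : R ≤ Submodule.span ℤ_[p] (w N : Set (Fin n → ℤ_[p])) :=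
    Submodule.le_of_le_smul_of_le_jacobson_bot hfg hjac h2
  have h4 := linearIndependent_le_span' a ha (w N : Set (Fin n → ℤ_[p])) (by
    rintro y ⟨i, rfl⟩
    exact h3 (haR i))
  rw [Cardinal.mk_fin] at h4
  have h4' : m ≤ Fintype.card ((w N : Set (Fin n → ℤ_[p])) : Type _) := by exact_mod_cast h4
  have h5 : m ≤ (w N).card := by simpa using h4'
  refine h5.trans ?_
  rw [hw]
  refine card_image_le.trans (le_of_eq ?_)
  rw [card_product, card_range, card_univ, Fintype.card_fin]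

end LAMa

open LAMa

/-- **JOB LAM** -/
theorem lam : S_LAM := by
  intro p _ n m t B hB R hR hsat hex hmt
  obtain ⟨a, ha, haR⟩ := hex
  have hp : p.Prime := Fact.out
  obtain ⟨T, hT⟩ : ∃ T : Matrix (Fin n) (Fin n) ℤ, T = 1 + B := ⟨_, rfl⟩
  rw [← hT] at hB
  have hBT : B = T - 1 := by rw [hT, add_sub_cancel_left]
  obtain ⟨Q, hQ⟩ : ∃ Q : Matrix (Fin n) (Fin n) ℤ, Q = -∑ i ∈ range p, ∑ j ∈ range i, T ^ j := ⟨_, rfl⟩
  have h1 : (∑ i ∈ range p, ∑ j ∈ range i, T ^ j) * B = -(p : Matrix (Fin n) (Fin n) ℤ) := by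
    rw [hBT, sum_mul, sum_congr rfl fun i _ => geom_sum_mul T i, sum_sub_distrib, hB, sum_const, card_range,
      nsmul_eq_mul, mul_one, zero_sub]
  have h2 : B * (∑ i ∈ range p, ∑ j ∈ range i, T ^ j) = -(p : Matrix (Fin n) (Fin n) ℤ) := by
    rw [hBT, mul_sum, sum_congr rfl fun i _ => mul_geom_sum T i, sum_sub_distrib, hB, sum_const, card_range,
      nsmul_eq_mul, mul_one, zero_sub]
  have hQB : Q * B = (p : Matrix (Fin n) (Fin n) ℤ) := by rw [hQ, neg_mul, h1, neg_neg]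
  have hBQ : B * Q = (p : Matrix (Fin n) (Fin n) ℤ) := by rw [hQ, mul_neg, h2, neg_neg]
  have hphB : B.map (Int.cast : ℤ → ℤ_[p]) = ph p n B := rfl
  rw [hphB] at hR ⊢
  have hBS : B ∈ St p n R := hR
  have hTS : T ∈ St p n R := by rw [hT]; exact (St p n R).add_mem (St p n R).one_mem hBS
  have hQS : Q ∈ St p n R := by
    rw [hQ]
    exact neg_mem (sum_mem fun i _ => sum_mem fun j _ => pow_mem hTS j)
  have hpv : ∀ b : Fin n → ℤ_[p], Matrix.vecMul b (ph p n (p : Matrix (Fin n) (Fin n) ℤ)) =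
      (p : ℤ_[p]) • b := by
    intro b
    have h4 := vecMul_p p n b p 1
    rw [map_one, Matrix.vecMul_one] at h4
    rw [← h4]
    congr 2
    rw [zsmul_eq_mul, mul_one]
    push_cast
    rfl
  have hRB : ∀ b : Fin n → ℤ_[p], Matrix.vecMul b (ph p n B) ∈ R → b ∈ R := by
    intro b hb
    refine hsat b ?_
    have h3 : (p : ℤ_[p]) • b = Matrix.vecMul (Matrix.vecMul b (ph p n B)) (ph p n Q) := by
      rw [Matrix.vecMul_vecMul, ← map_mul, hBQ, hpv]
    rw [h3]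
    exact hQS _ hb
  have hpR : ∀ y ∈ R, ∃ z ∈ R, (p : ℤ_[p]) • y = Matrix.vecMul z (ph p n B) := by
    intro y hy
    refine ⟨Matrix.vecMul y (ph p n Q), hQS y hy, ?_⟩
    rw [Matrix.vecMul_vecMul, ← map_mul, hQB, hpv]
  by_contra hcon
  obtain ⟨P, hP⟩ : ∃ P : ℕ → Prop, P = fun s => ∃ x : Fin s → Fin n → ℤ_[p], (∀ i, x i ∈ R) ∧
    ∀ c : Fin s → ℤ, (∃ i, ¬ (p : ℤ) ∣ c i) → ∀ b ∈ R,
      ∑ i, (c i : ℤ_[p]) • x i ≠ Matrix.vecMul b (ph p n B) := ⟨_, rfl⟩
  have hP0 : P 0 := by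
    rw [hP]
    exact ⟨fun i => i.elim0, fun i => i.elim0, fun c ⟨i, _⟩ => i.elim0⟩
  have hPt : ¬ P t := by
    rw [hP]
    rintro ⟨x, hx1, hx2⟩
    refine hcon ⟨x, hx1, fun c hc b hb => hx2 c hc b (hRB b ?_) hb⟩
    rw [← hb]
    exact R.sum_mem fun i _ => R.smul_mem _ (hx1 i)
  obtain ⟨s, hst, hPs, hPs1⟩ : ∃ s, s < t ∧ P s ∧ ¬ P (s + 1) := by
    by_contra h
    push Not at h
    have h3 : ∀ s, s ≤ t → P s := by
      intro s
      induction s with
      | zero => exact fun _ => hP0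
      | succ s ih => exact fun hs => h s (by omega) (ih (by omega))
    exact hPt (h3 t le_rfl)
  rw [hP] at hPs hPs1
  obtain ⟨x, hxR, hx⟩ := hPs
  obtain ⟨f, hf⟩ : ∃ f : (Fin n → ℤ_[p]) →ₗ[ℤ_[p]] (Fin n → ℤ_[p]), ∀ y, f y =
    Matrix.vecMul y (ph p n B) := ⟨Matrix.vecMulLinear (ph p n B), fun y => rfl⟩
  have hfm : ∀ z ∈ R, Matrix.vecMul z (ph p n B) ∈ R.map f := fun z hz => ⟨z, hz, hf z⟩
  have hgen : R ≤ Submodule.span ℤ_[p] (Set.range x) ⊔ R.map f := by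
    intro y hy
    have h3 : ∃ c : Fin (s + 1) → ℤ, (∃ i, ¬ (p : ℤ) ∣ c i) ∧ ∃ b ∈ R,
        ∑ i, (c i : ℤ_[p]) • (Fin.snoc x y : Fin (s + 1) → Fin n → ℤ_[p]) i =
          Matrix.vecMul b (ph p n B) := by
      by_contra h4
      push Not at h4
      refine hPs1 ⟨Fin.snoc x y, fun i => ?_, h4⟩
      refine Fin.lastCases ?_ (fun j => ?_) i
      · rw [Fin.snoc_last]; exact hy
      · rw [Fin.snoc_castSucc]; exact hxR j
    obtain ⟨c, ⟨i0, hi0⟩, b, hb, hcb⟩ := h3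
    rw [Fin.sum_univ_castSucc] at hcb
    simp only [Fin.snoc_castSucc, Fin.snoc_last] at hcb
    have hlast : ¬ (p : ℤ) ∣ c (Fin.last s) := by
      rintro ⟨k, hk⟩
      obtain ⟨z, hz, hz2⟩ := hpR ((k : ℤ_[p]) • y) (R.smul_mem _ hy)
      refine hx (fun i => c i.castSucc) ?_ (b - z) (R.sub_mem hb hz) ?_
      · refine Fin.lastCases (motive := fun i => ¬ (p : ℤ) ∣ c i →
          ∃ j : Fin s, ¬ (p : ℤ) ∣ c j.castSucc) (fun h => absurd ⟨k, hk⟩ h)
          (fun j h => ⟨j, h⟩) i0 hi0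
      · rw [Matrix.sub_vecMul, ← hcb, ← hz2, hk]
        push_cast
        rw [smul_smul, add_sub_cancel_right]
    have hcop : IsCoprime (c (Fin.last s)) (p : ℤ) := by
      rw [isCoprime_comm]
      exact (Nat.prime_iff_prime_int.1 hp).irreducible.coprime_iff_not_dvd.2 hlast
    obtain ⟨u, v, huv⟩ := hcop
    obtain ⟨z, hz, hz2⟩ := hpR y hy
    have e1 : y = (u : ℤ_[p]) • ((c (Fin.last s) : ℤ_[p]) • y) + (v : ℤ_[p]) • ((p : ℤ_[p]) • y) := by
      rw [smul_smul, smul_smul, ← add_smul]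
      have e2 : (u : ℤ_[p]) * (c (Fin.last s) : ℤ_[p]) + (v : ℤ_[p]) * (p : ℤ_[p]) = 1 := by
        exact_mod_cast congrArg (Int.cast : ℤ → ℤ_[p]) huv
      rw [e2, one_smul]
    have e3 : (c (Fin.last s) : ℤ_[p]) • y = Matrix.vecMul b (ph p n B) -
        ∑ i : Fin s, (c i.castSucc : ℤ_[p]) • x i := by
      rw [← hcb, add_sub_cancel_left]
    rw [e1, e3, hz2]
    refine Submodule.add_mem _ (Submodule.smul_mem _ _ (Submodule.sub_mem _
      (Submodule.mem_sup_right (hfm b hb)) (Submodule.mem_sup_left ?_)))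
      (Submodule.smul_mem _ _ (Submodule.mem_sup_right (hfm z hz)))
    exact Submodule.sum_mem _ fun i _ => Submodule.smul_mem _ _ (Submodule.subset_span ⟨i, rfl⟩)
  obtain ⟨C, hC⟩ := pow_pred p n T hB
  rw [← hBT] at hC
  have hfp : ∀ (j : ℕ) (y : Fin n → ℤ_[p]), (f ^ j) y = Matrix.vecMul y (ph p n (B ^ j)) := by
    intro j
    induction j with
    | zero =>
      intro y
      rw [pow_zero, pow_zero, map_one, Matrix.vecMul_one]
      rfl
    | succ j ih =>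
      intro y
      rw [pow_succ', Module.End.mul_apply, ih, hf, Matrix.vecMul_vecMul, ← map_mul, ← pow_succ]
  have hN : R.map (f ^ (p - 1)) ≤ Ideal.span {(p : ℤ_[p])} • R := by
    rintro y ⟨z, hz, rfl⟩
    have e1 : (f ^ (p - 1)) z = (p : ℤ_[p]) • Matrix.vecMul z (ph p n C) := by
      rw [hfp, hC, vecMul_p]
    have e2 : (f ^ (p - 1)) z ∈ R := by
      rw [hfp]
      exact pow_mem hBS (p - 1) z hz
    rw [e1] at e2 ⊢
    exact Submodule.smul_mem_smul (Ideal.mem_span_singleton_self _) (hsat _ e2)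
  have h6 := few p n s (p - 1) m f R x hgen hN a ha haR
  have h7 : (p - 1) * (s + 1) ≤ (p - 1) * t := Nat.mul_le_mul_left _ hst
  rw [mul_add, mul_one] at h7
  omega

end Pool.Agent.Q193.LK
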