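import Pool.Agent.Q7.LK.Stm3
import Pool.Agent.Q14.LK.Share

/-!
# Project LK of helper7: job SHAREM (helper193), adapted from SHARE of helper14
-/

set_option autoImplicit false

namespace Pool.Agent.Q193.LK

open NumberField IsDedekindDomain Filter Topology Finset
open Pool.Agent.Q7.LK
open Pool.Agent.Q283.LQ (Sm Box Nest nS)
open Pool.Agent.Q14.LK (nest_mono nest_all card_tab final tb_unique)

theorem sharem (hBASE : S_BASE) (hLOC : S_LOC) (hSH1 : S_SH1) (hSH2 : S_SH2M) (hEE : S_EE)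
    (hCOUNT : S_COUNT) (hNEST : S_NEST) : S_SHAREM := by
  intro p _ hp2 F _ _ ζ hζ
  have hp : p.Prime := Fact.out
  have hp1 : (1 : ℝ) < p := by exact_mod_cast hp.one_lt
  have hp0 : (0 : ℝ) < p := by linarith
  obtain ⟨y0, hy0⟩ := hBASE p hp2 F ζ hζ
  refine ⟨y0, fun y hy A c hA D0 hD0 ε hε => ?_⟩
  classical
  obtain ⟨f, u, r, π, g, hb, hf⟩ := hy0 y hy
  have hfin := (hLOC p hp2 F ζ hζ y hb.two).1
  obtain ⟨⟨ψ, w⟩, hcls, -⟩ := hb.cls D0 hD0
  have hcls' : Nn p y (D0 * mon r ψ * mon u w) := hcls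
  obtain ⟨E, hE1, hE2⟩ := hEE p F ζ hζ y f u r π g hb hf hfin A c hA D0 hD0
  obtain ⟨μ, hμ⟩ : ∃ μ : ℝ, μ = (p : ℝ) ^ (∑ᶠ v, c v) * (1 / (p : ℝ)) ^ InfinitePlace.nrComplexPlaces F := ⟨_, rfl⟩
  have hμ0 : 0 ≤ μ := by rw [hμ]; positivity
  rw [← hμ] at hE2
  -- the choice of k0
  have hlim : Tendsto (fun k : ℕ => (p : ℝ) ^ f * p / (p : ℝ) ^ k) atTop (𝓝 0) := by
    have h1 := tendsto_pow_atTop_nhds_zero_of_lt_one (by positivity : (0 : ℝ) ≤ 1 / (p : ℝ))
      (by rw [div_lt_one hp0]; exact hp1 : (1 : ℝ) / p < 1)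
    have h2 := h1.const_mul ((p : ℝ) ^ f * p)
    rw [mul_zero] at h2
    refine h2.congr fun k => ?_
    rw [one_div, inv_pow, ← div_eq_mul_inv]
  obtain ⟨k1, hk1⟩ := eventually_atTop.1 (hlim.eventually (gt_mem_nhds (half_pos hε)))
  refine ⟨max k1 1, fun k hk z hz => ?_⟩
  have hk1' : k1 ≤ k := (le_max_left _ _).trans hk
  have hk2 : 1 ≤ k := (le_max_right _ _).trans hk
  have hδ := hk1 k hk1'
  obtain ⟨M, hM⟩ : ∃ M : ℝ, M = (p : ℝ) ^ (k * f + k * (k - 1) / 2) := ⟨_, rfl⟩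
  have hM0 : 0 < M := by rw [hM]; positivity
  have hMcard : (Fintype.card (Tab p f k) : ℝ) = M := by
    rw [card_tab, hM]
    push_cast
    rfl
  obtain ⟨e, he⟩ : ∃ e : ℝ, e = min (1 / M / 2) (ε / 2 / M / (2 * μ + 2 * ε + M)) := ⟨_, rfl⟩
  have hden : 0 < 2 * μ + 2 * ε + M := by positivity
  have he0 : 0 < e := by
    rw [he]
    refine lt_min (by positivity) (by positivity)
  have he1 : e ≤ 1 / M / 2 := by rw [he]; exact min_le_left _ _
  have he2 : e * (2 * μ + 2 * ε + M) ≤ ε / 2 / M := by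
    rw [← le_div_iff₀ hden, he]
    exact min_le_right _ _
  have hnest := nest_all k (univ : Finset (Tab p f k)) (fun τ X =>
    (Box y X : Set (Fin k → HeightOneSpectrum (𝓞 F))).Finite ∧
    0 < ((Box y X : Set (Fin k → HeightOneSpectrum (𝓞 F))).ncard : ℝ) ∧
    |({q ∈ (Box y X : Set (Fin k → HeightOneSpectrum (𝓞 F))) | Tb ζ u π τ q}.ncard : ℝ) /
      ((Box y X : Set (Fin k → HeightOneSpectrum (𝓞 F))).ncard : ℝ) -
        1 / (p : ℝ) ^ (k * f + k * (k - 1) / 2)| ≤ e) fun τ _ => hNEST p F ζ hζ y f u r π g hb k τ e he0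
  -- a table with sum ψ
  obtain ⟨τ0, hτ0⟩ : ∃ τ : Tab p f k, ∑ j, z j • τ.1 j = ψ := by
    refine ⟨(fun j => if j = ⟨0, hk2⟩ then (z ⟨0, hk2⟩)⁻¹ • ψ else 0, fun _ => 0), ?_⟩
    show ∑ j : Fin k, z j • (if j = ⟨0, hk2⟩ then (z ⟨0, hk2⟩)⁻¹ • ψ else 0) = ψ
    rw [Finset.sum_eq_single (⟨0, hk2⟩ : Fin k)]
    · rw [if_pos rfl, smul_smul, mul_inv_cancel₀ (hz _), one_smul]
    · intro j _ hj
      rw [if_neg hj, smul_zero]
    · intro h
      exact absurd (Finset.mem_univ _) h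
  refine nest_mono k (fun X hX => ?_) hnest
  obtain ⟨hBfin, hBpos, -⟩ := hX τ0 (Finset.mem_univ _)
  refine ⟨hBfin, ?_⟩
  obtain ⟨Bf, hBf⟩ : ∃ Bf : Finset (Fin k → HeightOneSpectrum (𝓞 F)), Bf = hBfin.toFinset := ⟨_, rfl⟩
  have hmem : ∀ q, q ∈ Bf ↔ q ∈ (Box y X : Set (Fin k → HeightOneSpectrum (𝓞 F))) := by
    intro q
    rw [hBf, Set.Finite.mem_toFinset]
  have hnc : ∀ P : (Fin k → HeightOneSpectrum (𝓞 F)) → Prop,
      ({q ∈ (Box y X : Set (Fin k → HeightOneSpectrum (𝓞 F))) | P q}.ncard : ℝ) =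
        ((Bf.filter P).card : ℝ) := by
    intro P
    rw [← Set.ncard_coe_finset (Bf.filter P)]
    congr 2
    ext q
    rw [Finset.coe_filter]
    show (q ∈ (Box y X : Set (Fin k → HeightOneSpectrum (𝓞 F))) ∧ P q) ↔ (q ∈ Bf ∧ P q)
    rw [hmem]
  have hBc : ((Box y X : Set (Fin k → HeightOneSpectrum (𝓞 F))).ncard : ℝ) = (Bf.card : ℝ) := by
    rw [← Set.ncard_coe_finset Bf]
    congr 2
    ext q
    rw [Finset.mem_coe, hmem]
  rw [hBc] at hBpos
  -- the shares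
  have hsh : ∀ τ : Tab p f k, (1 / M - e) * Bf.card ≤ ((Bf.filter (Tb ζ u π τ)).card : ℝ) ∧
      ((Bf.filter (Tb ζ u π τ)).card : ℝ) ≤ (1 / M + e) * Bf.card := by
    intro τ
    have h1 := (hX τ (Finset.mem_univ _)).2.2
    rw [hBc, hnc, ← hM, abs_le] at h1
    constructor
    · rw [← le_div_iff₀ hBpos]
      linarith [h1.1]
    · rw [← div_le_iff₀ hBpos]
      linarith [h1.2]
  have hdisj : ∀ s : Finset (Tab p f k), Set.PairwiseDisjoint (s : Set (Tab p f k))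
      fun τ => Bf.filter (Tb ζ u π τ) := by
    intro s τ _ τ' _ hne
    rw [Function.onFun, Finset.disjoint_filter]
    intro q _ h h'
    exact hne (tb_unique h h')
  have hcardU : ∀ s : Finset (Tab p f k), ((s.biUnion fun τ => Bf.filter (Tb ζ u π τ)).card : ℝ) =
      ∑ τ ∈ s, ((Bf.filter (Tb ζ u π τ)).card : ℝ) := by
    intro s
    rw [Finset.card_biUnion (fun τ hτ τ' hτ' hne => hdisj s hτ hτ' hne)]
    push_cast
    rfl
  have hinj : ∀ q ∈ Bf, Function.Injective q ∧ ∀ i, ¬ Sm y (q i) := by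
    intro q hq
    have h1 := (hmem q).1 hq
    exact ⟨h1.1, fun i => (h1.2 i).1⟩
  -- the tables with sum ψ
  obtain ⟨Gd, hGd⟩ : ∃ Gd : Finset (Tab p f k), Gd = univ.filter (fun τ : Tab p f k => ∑ j, z j • τ.1 j = ψ) :=
    ⟨_, rfl⟩
  have hGd1 : 1 ≤ (Gd.card : ℝ) := by
    have : 0 < Gd.card := Finset.card_pos.2 ⟨τ0, by
      rw [hGd, Finset.mem_filter]
      exact ⟨Finset.mem_univ _, hτ0⟩⟩
    exact_mod_cast this
  have hG : (Gd.card : ℝ) * (1 / M - e) * Bf.card ≤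
      ({q ∈ (Box y X : Set (Fin k → HeightOneSpectrum (𝓞 F))) | ∃ D, Fits p y D0 z q D}.ncard : ℝ) := by
    rw [hnc]
    have h1 : Gd.biUnion (fun τ => Bf.filter (Tb ζ u π τ)) ⊆ Bf.filter fun q => ∃ D, Fits p y D0 z q D := by
      intro q hq
      rw [Finset.mem_biUnion] at hq
      obtain ⟨τ, hτ, hq⟩ := hq
      rw [Finset.mem_filter] at hq ⊢
      refine ⟨hq.1, ?_⟩
      have h2 := hinj q hq.1
      rw [hGd, Finset.mem_filter] at hτ
      exact ((hSH1 p F ζ hζ y f u r π g hb D0 ψ w hD0 hcls' k z q h2.1 h2.2 τ hq.2).1).2 hτ.2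
    have h2 : ((Gd.biUnion fun τ => Bf.filter (Tb ζ u π τ)).card : ℝ) ≤
        ((Bf.filter fun q => ∃ D, Fits p y D0 z q D).card : ℝ) := by
      exact_mod_cast Finset.card_le_card h1
    refine le_trans ?_ h2
    rw [hcardU]
    calc (Gd.card : ℝ) * (1 / M - e) * Bf.card = ∑ _τ ∈ Gd, (1 / M - e) * Bf.card := by
          rw [Finset.sum_const, nsmul_eq_mul]
          ring
      _ ≤ _ := Finset.sum_le_sum fun τ _ => (hsh τ).1
  have hGpos : 0 < ({q ∈ (Box y X : Set (Fin k → HeightOneSpectrum (𝓞 F))) |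
      ∃ D, Fits p y D0 z q D}.ncard : ℝ) := by
    refine lt_of_lt_of_le ?_ hG
    have h1 : 0 < 1 / M - e := by
      have : 0 < 1 / M := by positivity
      linarith
    positivity
  refine ⟨hGpos, ?_⟩
  intro N hN
  rw [← hμ]
  -- tables with at least N solutions
  obtain ⟨sol, hsol⟩ : ∃ sol : Tab p f k → ℕ, ∀ τ, sol τ =
      ((univ : Finset ((Fin f → ZMod p) × (Fin k → ZMod p))).filter
        (fun x => IsSol g w z E τ x)).card := ⟨_, fun τ => rfl⟩
  obtain ⟨GN, hGN⟩ : ∃ GN : Finset (Tab p f k), GN = Gd.filter fun τ => N ≤ sol τ := ⟨_, rfl⟩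
  have hmark : (N : ℝ) * GN.card ≤ (μ + ε / 2) * Gd.card := by
    have h1 := hCOUNT p f k hk2 g w ψ z hz E
    rw [← hGd] at h1
    have h2 : (N : ℝ) * GN.card ≤ ∑ τ ∈ Gd, (((univ : Finset ((Fin f → ZMod p) × (Fin k → ZMod p))).filter
        (fun x => IsSol g w z E τ x)).card : ℝ) := by
      calc (N : ℝ) * GN.card = ∑ _τ ∈ GN, (N : ℝ) := by
            rw [Finset.sum_const, nsmul_eq_mul, mul_comm]
        _ ≤ ∑ τ ∈ GN, (((univ : Finset ((Fin f → ZMod p) × (Fin k → ZMod p))).filter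
              (fun x => IsSol g w z E τ x)).card : ℝ) := by
            refine Finset.sum_le_sum fun τ hτ => ?_
            rw [hGN, Finset.mem_filter] at hτ
            have h3 := hτ.2
            rw [hsol] at h3
            exact_mod_cast h3
        _ ≤ _ := by
            refine Finset.sum_le_sum_of_subset_of_nonneg ?_ fun τ _ _ => Nat.cast_nonneg _
            rw [hGN]
            exact Finset.filter_subset _ _
    refine (h2.trans h1).trans ?_
    refine mul_le_mul_of_nonneg_right ?_ (by linarith)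
    linarith
  have hH : ({q ∈ (Box y X : Set (Fin k → HeightOneSpectrum (𝓞 F))) |
      ∃ D, Fits p y D0 z q D ∧ Many p A D N}.ncard : ℝ) ≤
      (GN.card : ℝ) * (1 / M + e) * Bf.card + M * e * Bf.card := by
    rw [hnc]
    have h1 : (Bf.filter fun q => ∃ D, Fits p y D0 z q D ∧ Many p A D N) ⊆
        GN.biUnion (fun τ => Bf.filter (Tb ζ u π τ)) ∪
          (Bf \ (univ : Finset (Tab p f k)).biUnion fun τ => Bf.filter (Tb ζ u π τ)) := by
      intro q hq
      rw [Finset.mem_filter] at hq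
      obtain ⟨hqB, D, hD, hmany⟩ := hq
      have h2 := hinj q hqB
      rw [Finset.mem_union]
      by_cases h3 : ∃ τ : Tab p f k, Tb ζ u π τ q
      · left
        obtain ⟨τ, hτ⟩ := h3
        rw [Finset.mem_biUnion]
        refine ⟨τ, ?_, ?_⟩
        · rw [hGN, Finset.mem_filter, hGd, Finset.mem_filter]
          refine ⟨⟨Finset.mem_univ _,
            ((hSH1 p F ζ hζ y f u r π g hb D0 ψ w hD0 hcls' k z q h2.1 h2.2 τ hτ).1).1 ⟨D, hD⟩⟩, ?_⟩
          rw [hsol]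
          exact hSH2 p F ζ hζ y f u r π g hb A c hA D0 ψ w hD0 hcls' k z q hk2 hz h2.1 h2.2 τ hτ E hE1 D hD
            N hmany
        · rw [Finset.mem_filter]
          exact ⟨hqB, hτ⟩
      · right
        rw [Finset.mem_sdiff]
        refine ⟨hqB, fun h4 => ?_⟩
        rw [Finset.mem_biUnion] at h4
        obtain ⟨τ, -, h5⟩ := h4
        rw [Finset.mem_filter] at h5
        exact h3 ⟨τ, h5.2⟩
    have h2 : (((Bf.filter fun q => ∃ D, Fits p y D0 z q D ∧ Many p A D N)).card : ℝ) ≤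
        ((GN.biUnion (fun τ => Bf.filter (Tb ζ u π τ))).card : ℝ) +
          ((Bf \ (univ : Finset (Tab p f k)).biUnion fun τ => Bf.filter (Tb ζ u π τ)).card : ℝ) := by
      exact_mod_cast (Finset.card_le_card h1).trans (Finset.card_union_le _ _)
    have h3 : ((GN.biUnion (fun τ => Bf.filter (Tb ζ u π τ))).card : ℝ) ≤
        (GN.card : ℝ) * (1 / M + e) * Bf.card := by
      rw [hcardU]
      calc ∑ τ ∈ GN, ((Bf.filter (Tb ζ u π τ)).card : ℝ) ≤ ∑ _τ ∈ GN, (1 / M + e) * Bf.card :=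
            Finset.sum_le_sum fun τ _ => (hsh τ).2
        _ = _ := by
            rw [Finset.sum_const, nsmul_eq_mul]
            ring
    have hsub : ((univ : Finset (Tab p f k)).biUnion fun τ => Bf.filter (Tb ζ u π τ)) ⊆ Bf := by
      intro q hq
      rw [Finset.mem_biUnion] at hq
      obtain ⟨τ, -, h5⟩ := hq
      exact (Finset.mem_filter.1 h5).1
    have h4 : ((Bf \ (univ : Finset (Tab p f k)).biUnion fun τ => Bf.filter (Tb ζ u π τ)).card : ℝ) ≤
        M * e * Bf.card := by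
      rw [Finset.cast_card_sdiff hsub, hcardU]
      have h5 : ∑ _τ : Tab p f k, (1 / M - e) * (Bf.card : ℝ) ≤
          ∑ τ : Tab p f k, ((Bf.filter (Tb ζ u π τ)).card : ℝ) :=
        Finset.sum_le_sum fun τ _ => (hsh τ).1
      rw [Finset.sum_const, nsmul_eq_mul, Finset.card_univ, hMcard] at h5
      have h6 : M * ((1 / M - e) * (Bf.card : ℝ)) = Bf.card - M * e * Bf.card := by
        field_simp
      linarith
    linarith
  exact final hGd1 hBpos hM0 he0 he2 hμ0 hε hN hG hH hmark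

end Pool.Agent.Q193.LK
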